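import Mathlib
import Pool.Agent.H84R7.Fin

/-!
# Turing equivalence and continuous actions: Baire class one off a small invariant set

There are a countable group acting continuously on Baire space and a Borel isomorphism `Φ` from Turing
equivalence onto its orbit equivalence relation which is of Baire class one off a Turing invariant
Borel set that is meager and misses a cone; off that set `Φ x` is moreover Turing equivalent to the
jump of `x`.
-/

set_option autoImplicit false

namespace Pool.Agent.Results.MP_a48249_lc.OffSmallSet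

/-- `y` is computable from `x`. -/
def TuringLe (y x : ℕ → Bool) : Prop :=
  RecursiveIn {PFun.lift (fun n => (x n).toNat)} (PFun.lift (fun n => (y n).toNat))

/-- Turing equivalence on Cantor space. -/
def TuringEquiv (x y : ℕ → Bool) : Prop := TuringLe x y ∧ TuringLe y x

/-- Baire class one: preimages of open sets are countable unions of closed sets. -/
def BaireClassOne (f : (ℕ → Bool) → (ℕ → ℕ)) : Prop :=
  ∀ U : Set (ℕ → ℕ), IsOpen U → ∃ F : ℕ → Set (ℕ → Bool), (∀ n, IsClosed (F n)) ∧ f ⁻¹' U = ⋃ n, F n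

/-- There are a countable group `G` acting on Baire space by homeomorphisms and a Borel isomorphism
`Φ` from Cantor space onto Baire space that carries Turing equivalence exactly onto the orbit
equivalence relation of `G`, such that `Φ` coincides with a Baire class one function `Ψ` off a Turing
invariant Borel set `A` which is meager and is disjoint from a cone. -/
theorem result :
    ∃ (G : Type) (_ : Group G) (_ : Countable G) (_ : MulAction G (ℕ → ℕ)),
      (∀ g : G, Continuous (fun y : ℕ → ℕ => g • y)) ∧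
      ∃ Φ : (ℕ → Bool) ≃ᵐ (ℕ → ℕ),
        (∀ x y : ℕ → Bool, TuringEquiv x y ↔ ∃ g : G, g • Φ x = Φ y) ∧
        ∃ (A : Set (ℕ → Bool)) (Ψ : (ℕ → Bool) → (ℕ → ℕ)),
          MeasurableSet A ∧ IsMeagre A ∧
          (∀ x y : ℕ → Bool, TuringEquiv x y → (x ∈ A ↔ y ∈ A)) ∧
          (∃ z : ℕ → Bool, ∀ x : ℕ → Bool, TuringLe z x → x ∉ A) ∧
          BaireClassOne Ψ ∧ Function.Injective Ψ ∧ ∀ x : ℕ → Bool, x ∉ A → Φ x = Ψ x := by
  obtain ⟨G, h1, h2, h3, hc, Φ, h4, h5, -⟩ := Pool.Agent.H84R7.final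
  refine ⟨G, h1, h2, h3, hc, Φ, ?_, Pool.Agent.H84R7.AA, Pool.Agent.H84R7.Ps,
    Pool.Agent.H84R7.ms_AA, Pool.Agent.H84R7.AA_meager, ?_, ⟨Pool.Agent.H84R7.zz, ?_⟩,
    Pool.Agent.H84R7.Ps_baire1, Pool.Agent.H84R7.Ps_inj, h5⟩
  · intro x y
    rw [← h4 x y]
    constructor
    · rintro ⟨h6, h7⟩
      exact ⟨Pool.Agent.H84R6.tle_iff.1 h7, Pool.Agent.H84R6.tle_iff.1 h6⟩
    · rintro ⟨h6, h7⟩
      exact ⟨Pool.Agent.H84R6.tle_iff.2 h7, Pool.Agent.H84R6.tle_iff.2 h6⟩
  · rintro x y ⟨h6, h7⟩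
    have h8 : Pool.Agent.H84R6.EE x y :=
      ⟨Pool.Agent.H84R6.tle_iff.1 h6, Pool.Agent.H84R6.tle_iff.1 h7⟩
    exact ⟨fun h => Pool.Agent.H84R7.AA_sat h8 h, fun h => Pool.Agent.H84R7.AA_sat h8.symm h⟩
  · intro x hx hxA
    exact Pool.Agent.H84R7.AA_zz hxA (Pool.Agent.H84R6.tle_iff.1 hx)

end Pool.Agent.Results.MP_a48249_lc.OffSmallSet
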